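import Pool.Agent.MinRank.Poly
import Pool.Agent.MinRank.Injective

/-!
# `MinRank r` is hard for the existential theory of the reals, for every constant `r ≥ 2`

The formula is turned into a system of equations `c = a + b`, `c = a * b`, `a = const` with a
stack machine; each equation says that a `3 × 3` block is singular. The blocks, padded with an
identity matrix to `(r + 1) × (r + 1)` blocks, are the diagonal blocks of one large matrix whose
other entries are variables occurring only once. If all blocks have rank at most `r`, they factor
through `ℝ ^ r`, and the product of the factors gives the values of the remaining variables.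
-/

set_option autoImplicit false

namespace Pool.Agent.Results.MP_51fc0b_lc.HardForEveryConstant

open Pool.Agent.MinRank Pool.Agent.PolyTime

theorem result : ∀ r : ℕ, 2 ≤ r → ERHard (MinRank r) := by
  intro r hr
  obtain ⟨s, rfl⟩ : ∃ s, r = s + 2 := ⟨r - 2, by omega⟩
  refine ⟨fun φ => bigMat (s + 3) (sysOf φ.rpn), ?_, fun φ => ⟨fun h => ?_, fun h => ?_⟩⟩
  · exact PT.tm (PT_bigMat (s + 3) (PT_sysOf (PT_rpn (f := fun φ : Formula => φ) PT.id)))
  · obtain ⟨x, hx⟩ := holds_of_etr φ h
    exact minRank_of_holds s _ x hx
  · obtain ⟨x, hx⟩ := sat_of_minRank s _ h
    exact etr_of_sat φ x hx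

end Pool.Agent.Results.MP_51fc0b_lc.HardForEveryConstant
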